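import Pool.Agent.Helper40.AV.St

set_option autoImplicit false

open Filter Topology

namespace Pool.Agent.Helper59.AV

open Pool.Agent.Helper40.AV

lemma cu_continuous : Continuous cu := by
  unfold cu
  have := Real.continuous_mul_log
  fun_prop

/-- `cu` is above its chords -/
lemma chord {α β m k : ℝ} (h0 : 0 ≤ α) (hab : α < β) (h1 : m * α + k ≤ cu α)
    (h2 : m * β + k ≤ cu β) {u : ℝ} (hu1 : α ≤ u) (hu2 : u ≤ β) : m * u + k ≤ cu u := by
  have hd : 0 < β - α := by linarith
  have hc := Real.convexOn_mul_log.2 (show α ∈ Set.Ici (0:ℝ) from h0)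
    (show β ∈ Set.Ici (0:ℝ) from h0.trans hab.le)
    (show 0 ≤ (β - u) / (β - α) from div_nonneg (by linarith) hd.le)
    (show 0 ≤ (u - α) / (β - α) from div_nonneg (by linarith) hd.le)
    (by rw [← add_div]; rw [div_eq_one_iff_eq hd.ne']; ring)
  simp only [smul_eq_mul] at hc
  have hu : (β - u) / (β - α) * α + (u - α) / (β - α) * β = u := by
    field_simp
    ring
  rw [hu] at hc
  unfold cu at *
  have e1 : (β - u) / (β - α) * (2 * α - 1 - m * α - k) + (u - α) / (β - α) * (2 * β - 1 - m * β - k)
      = 2 * u - 1 - m * u - k := by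
    field_simp
    ring
  have e2 : (β - u) / (β - α) * (α * Real.log α) ≤
      (β - u) / (β - α) * (2 * α - 1 - m * α - k) :=
    mul_le_mul_of_nonneg_left (by linarith) (div_nonneg (by linarith) hd.le)
  have e3 : (u - α) / (β - α) * (β * Real.log β) ≤
      (u - α) / (β - α) * (2 * β - 1 - m * β - k) :=
    mul_le_mul_of_nonneg_left (by linarith) (div_nonneg (by linarith) hd.le)
  linarith

lemma log_le_of {x c : ℝ} (hx : 0 < x) (hc : 0 ≤ c) (n : ℕ)
    (h : x ≤ ∑ i ∈ Finset.range n, c ^ i / (i.factorial : ℝ)) : Real.log x ≤ c := by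
  rw [Real.log_le_iff_le_exp hx]
  exact h.trans (Real.sum_le_exp_of_nonneg hc n)

lemma log2 : Real.log 2 ≤ 0.6932 := by
  have := Real.log_two_lt_d9
  linarith

lemma log1498 : Real.log 1.498 ≤ 0.4044 := by
  apply log_le_of (by norm_num) (by norm_num) 7
  simp only [Finset.sum_range_succ, Finset.sum_range_zero, Nat.factorial]
  norm_num

lemma log15 : Real.log 1.5 ≤ 0.4055 := by
  apply log_le_of (by norm_num) (by norm_num) 7
  simp only [Finset.sum_range_succ, Finset.sum_range_zero, Nat.factorial]
  norm_num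

lemma cu_two : (1.6136 : ℝ) ≤ cu 2 := by
  unfold cu
  have := log2
  linarith

lemma cu_high {u : ℝ} (h1 : 1.498 ≤ u) (h2 : u ≤ 2) : 0.443 * u + 0.7265 ≤ cu u := by
  apply chord (α := 1.498) (β := 2) (by norm_num) (by norm_num) _ _ h1 h2
  · unfold cu
    have := log1498
    linarith
  · have := cu_two
    linarith

lemma cu_low {u : ℝ} (h1 : 1 ≤ u) (h2 : u ≤ 1.5) : 0.783 * u + 0.217 ≤ cu u := by
  apply chord (α := 1) (β := 1.5) (by norm_num) (by norm_num) _ _ h1 h2
  · unfold cu
    rw [Real.log_one]
    norm_num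
  · unfold cu
    have := log15
    linarith

theorem int1 : (∫ a in (1 / 16 : ℝ)..(0.0999 : ℝ), 1 / (cu 2 * a ^ 2)) ≤ 3.72 := by
  have hc := cu_two
  have hc0 : 0 < cu 2 := by linarith
  have h : (∫ a in (1 / 16 : ℝ)..(0.0999 : ℝ), 1 / (cu 2 * a ^ 2)) =
      (-(1 / (cu 2 * 0.0999))) - (-(1 / (cu 2 * (1 / 16)))) := by
    apply intervalIntegral.integral_eq_sub_of_hasDerivAt (f := fun a => -(1 / (cu 2 * a)))
    · intro a ha
      rw [Set.uIcc_of_le (by norm_num)] at ha
      have ha0 : a ≠ 0 := by
        have := ha.1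
        intro h
        rw [h] at this
        norm_num at this
      have h1 : HasDerivAt (fun a : ℝ => cu 2 * a) (cu 2) a := by
        simpa using (hasDerivAt_id a).const_mul (cu 2)
      have h2 := (h1.inv (mul_ne_zero hc0.ne' ha0)).neg
      refine (h2.congr_deriv ?_).congr_of_eventuallyEq ?_
      · field_simp
      · filter_upwards with x
        simp
    · apply ContinuousOn.intervalIntegrable
      intro a ha
      rw [Set.uIcc_of_le (by norm_num)] at ha
      have ha0 : a ≠ 0 := by
        have := ha.1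
        intro h
        rw [h] at this
        norm_num at this
      apply ContinuousAt.continuousWithinAt
      have : cu 2 * a ^ 2 ≠ 0 := mul_ne_zero hc0.ne' (pow_ne_zero 2 ha0)
      fun_prop (disch := assumption)
  rw [h]
  have e : (-(1 / (cu 2 * 0.0999))) - (-(1 / (cu 2 * (1 / 16)))) = (16 - 1 / 0.0999) / cu 2 := by
    field_simp
    ring
  rw [e, div_le_iff₀ hc0]
  have : (16 - 1 / 0.0999 : ℝ) ≤ 3.72 * 1.6136 := by norm_num
  nlinarith

theorem int4 : (∫ a in (0.2495 : ℝ)..(0.435 : ℝ), 2 / (0.4995 - a)) ≤ 2.72 := by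
  have h : (∫ a in (0.2495 : ℝ)..(0.435 : ℝ), 2 / (0.4995 - a)) =
      (-2 * Real.log (0.4995 - 0.435)) - (-2 * Real.log (0.4995 - 0.2495)) := by
    apply intervalIntegral.integral_eq_sub_of_hasDerivAt (f := fun a => -2 * Real.log (0.4995 - a))
    · intro a ha
      rw [Set.uIcc_of_le (by norm_num)] at ha
      have ha0 : (0.4995 : ℝ) - a ≠ 0 := by
        have := ha.2
        have : (0 : ℝ) < 0.4995 - a := by linarith
        exact this.ne'
      have h1 : HasDerivAt (fun a : ℝ => 0.4995 - a) (-1) a := by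
        simpa using (hasDerivAt_id a).const_sub 0.4995
      have h2 := (h1.log ha0).const_mul (-2)
      refine h2.congr_deriv ?_
      field_simp
    · apply ContinuousOn.intervalIntegrable
      intro a ha
      rw [Set.uIcc_of_le (by norm_num)] at ha
      have ha0 : (0.4995 : ℝ) - a ≠ 0 := by
        have := ha.2
        have : (0 : ℝ) < 0.4995 - a := by linarith
        exact this.ne'
      apply ContinuousAt.continuousWithinAt
      fun_prop (disch := assumption)
  rw [h]
  have e : (-2 * Real.log (0.4995 - 0.435)) - (-2 * Real.log (0.4995 - 0.2495)) =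
      2 * Real.log (0.25 / 0.0645) := by
    rw [Real.log_div (by norm_num) (by norm_num)]
    norm_num
    ring
  rw [e]
  have : Real.log (0.25 / 0.0645) ≤ 1.36 := by
    apply log_le_of (by norm_num) (by norm_num) 9
    simp only [Finset.sum_range_succ, Finset.sum_range_zero, Nat.factorial]
    norm_num
  linarith

theorem int3 : (∫ a in (1 / 8 : ℝ)..(0.2495 : ℝ), 8 / cu (4 * (0.4995 - a))) ≤ 0.85 := by
  have hb : ∀ a ∈ Set.Icc (1 / 8 : ℝ) 0.2495, 0 < 1.781434 - 3.132 * a ∧
      1.781434 - 3.132 * a ≤ cu (4 * (0.4995 - a)) := by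
    intro a ha
    have h1 := ha.1
    have h2 := ha.2
    refine ⟨by linarith, ?_⟩
    have := cu_low (u := 4 * (0.4995 - a)) (by linarith) (by linarith)
    linarith
  have hmono : (∫ a in (1 / 8 : ℝ)..(0.2495 : ℝ), 8 / cu (4 * (0.4995 - a))) ≤
      ∫ a in (1 / 8 : ℝ)..(0.2495 : ℝ), 8 / (1.781434 - 3.132 * a) := by
    apply intervalIntegral.integral_mono_on (by norm_num)
    · apply ContinuousOn.intervalIntegrable
      intro a ha
      rw [Set.uIcc_of_le (by norm_num)] at ha
      obtain ⟨h1, h2⟩ := hb a ha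
      have h3 : cu (4 * (0.4995 - a)) ≠ 0 := (h1.trans_le h2).ne'
      have := cu_continuous
      apply ContinuousAt.continuousWithinAt
      fun_prop (disch := assumption)
    · apply ContinuousOn.intervalIntegrable
      intro a ha
      rw [Set.uIcc_of_le (by norm_num)] at ha
      obtain ⟨h1, h2⟩ := hb a ha
      have h3 := h1.ne'
      apply ContinuousAt.continuousWithinAt
      fun_prop (disch := assumption)
    · intro a ha
      obtain ⟨h1, h2⟩ := hb a ha
      exact div_le_div_of_nonneg_left (by norm_num) h1 h2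
  refine hmono.trans ?_
  have h : (∫ a in (1 / 8 : ℝ)..(0.2495 : ℝ), 8 / (1.781434 - 3.132 * a)) =
      (-(8 / 3.132) * Real.log (1.781434 - 3.132 * 0.2495)) -
        (-(8 / 3.132) * Real.log (1.781434 - 3.132 * (1 / 8))) := by
    apply intervalIntegral.integral_eq_sub_of_hasDerivAt
      (f := fun a => -(8 / 3.132) * Real.log (1.781434 - 3.132 * a))
    · intro a ha
      rw [Set.uIcc_of_le (by norm_num)] at ha
      have h3 := (hb a ha).1.ne'
      have h1 : HasDerivAt (fun a : ℝ => 1.781434 - 3.132 * a) (-3.132) a := by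
        simpa using ((hasDerivAt_id a).const_mul 3.132).const_sub 1.781434
      have h2 := (h1.log h3).const_mul (-(8 / 3.132))
      refine h2.congr_deriv ?_
      field_simp
    · apply ContinuousOn.intervalIntegrable
      intro a ha
      rw [Set.uIcc_of_le (by norm_num)] at ha
      have h3 := (hb a ha).1.ne'
      apply ContinuousAt.continuousWithinAt
      fun_prop (disch := assumption)
  rw [h]
  have e : (-(8 / 3.132) * Real.log (1.781434 - 3.132 * 0.2495)) -
        (-(8 / 3.132) * Real.log (1.781434 - 3.132 * (1 / 8))) =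
      8 / 3.132 * Real.log ((1.781434 - 3.132 * (1 / 8)) / (1.781434 - 3.132 * 0.2495)) := by
    rw [Real.log_div (by norm_num) (by norm_num)]
    ring
  rw [e]
  have : Real.log ((1.781434 - 3.132 * (1 / 8)) / (1.781434 - 3.132 * 0.2495)) ≤ 0.3327 := by
    apply log_le_of (by norm_num) (by norm_num) 5
    simp only [Finset.sum_range_succ, Finset.sum_range_zero, Nat.factorial]
    norm_num
  linarith

theorem int2 : (∫ a in (0.0999 : ℝ)..(1 / 8 : ℝ),
    1 / (cu ((0.4995 - a) / (2 * a)) * a ^ 2)) ≤ 1.35 := by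
  have hb : ∀ a ∈ Set.Icc (0.0999 : ℝ) (1 / 8), 0 < a ∧ 0 < 0.505 * a + 0.11063925 ∧
      (0.505 * a + 0.11063925) / a ≤ cu ((0.4995 - a) / (2 * a)) := by
    intro a ha
    have h1 := ha.1
    have h2 := ha.2
    have h0 : 0 < a := by linarith
    refine ⟨h0, by linarith, ?_⟩
    have := cu_high (u := (0.4995 - a) / (2 * a)) (by rw [le_div_iff₀ (by positivity)]; linarith)
      (by rw [div_le_iff₀ (by positivity)]; linarith)
    refine le_trans (le_of_eq ?_) this
    field_simp
    ring
  have hmono : (∫ a in (0.0999 : ℝ)..(1 / 8 : ℝ), 1 / (cu ((0.4995 - a) / (2 * a)) * a ^ 2)) ≤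
      ∫ a in (0.0999 : ℝ)..(1 / 8 : ℝ), 1 / (a * (0.505 * a + 0.11063925)) := by
    apply intervalIntegral.integral_mono_on (by norm_num)
    · apply ContinuousOn.intervalIntegrable
      intro a ha
      rw [Set.uIcc_of_le (by norm_num)] at ha
      obtain ⟨h0, h1, h2⟩ := hb a ha
      have h3 : cu ((0.4995 - a) / (2 * a)) * a ^ 2 ≠ 0 :=
        mul_ne_zero ((div_pos h1 h0).trans_le h2).ne' (pow_ne_zero 2 h0.ne')
      have h4 : 2 * a ≠ 0 := by positivity
      have := cu_continuous
      apply ContinuousAt.continuousWithinAt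
      fun_prop (disch := assumption)
    · apply ContinuousOn.intervalIntegrable
      intro a ha
      rw [Set.uIcc_of_le (by norm_num)] at ha
      obtain ⟨h0, h1, h2⟩ := hb a ha
      have h3 : a * (0.505 * a + 0.11063925) ≠ 0 := (mul_pos h0 h1).ne'
      apply ContinuousAt.continuousWithinAt
      fun_prop (disch := assumption)
    · intro a ha
      obtain ⟨h0, h1, h2⟩ := hb a ha
      apply div_le_div_of_nonneg_left (by norm_num) (mul_pos h0 h1)
      rw [div_le_iff₀ h0] at h2
      nlinarith
  refine hmono.trans ?_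
  have h : (∫ a in (0.0999 : ℝ)..(1 / 8 : ℝ), 1 / (a * (0.505 * a + 0.11063925))) =
      ((1 / 0.11063925) * (Real.log (1 / 8) - Real.log (0.505 * (1 / 8) + 0.11063925))) -
        ((1 / 0.11063925) * (Real.log 0.0999 - Real.log (0.505 * 0.0999 + 0.11063925))) := by
    apply intervalIntegral.integral_eq_sub_of_hasDerivAt
      (f := fun a => (1 / 0.11063925) * (Real.log a - Real.log (0.505 * a + 0.11063925)))
    · intro a ha
      rw [Set.uIcc_of_le (by norm_num)] at ha
      obtain ⟨h0, h1, _⟩ := hb a ha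
      have h3 : HasDerivAt (fun a : ℝ => 0.505 * a + 0.11063925) 0.505 a := by
        simpa using ((hasDerivAt_id a).const_mul 0.505).add_const 0.11063925
      have h2 := ((Real.hasDerivAt_log h0.ne').sub (h3.log h1.ne')).const_mul (1 / 0.11063925)
      refine h2.congr_deriv ?_
      have := h0.ne'
      have := h1.ne'
      field_simp
      ring
    · apply ContinuousOn.intervalIntegrable
      intro a ha
      rw [Set.uIcc_of_le (by norm_num)] at ha
      obtain ⟨h0, h1, h2⟩ := hb a ha
      have h3 : a * (0.505 * a + 0.11063925) ≠ 0 := (mul_pos h0 h1).ne'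
      apply ContinuousAt.continuousWithinAt
      fun_prop (disch := assumption)
  rw [h]
  have e : ((1 / 0.11063925) * (Real.log (1 / 8) - Real.log (0.505 * (1 / 8) + 0.11063925))) -
        ((1 / 0.11063925) * (Real.log 0.0999 - Real.log (0.505 * 0.0999 + 0.11063925))) =
      (1 / 0.11063925) * Real.log (((1 / 8) / (0.505 * (1 / 8) + 0.11063925)) /
        (0.0999 / (0.505 * 0.0999 + 0.11063925))) := by
    have l1 : Real.log (((1 / 8) / (0.505 * (1 / 8) + 0.11063925)) /
        (0.0999 / (0.505 * 0.0999 + 0.11063925))) =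
        Real.log ((1 / 8) / (0.505 * (1 / 8) + 0.11063925)) -
          Real.log (0.0999 / (0.505 * 0.0999 + 0.11063925)) :=
      Real.log_div (by norm_num) (by norm_num)
    have l2 : Real.log ((1 / 8) / (0.505 * (1 / 8) + 0.11063925)) =
        Real.log (1 / 8) - Real.log (0.505 * (1 / 8) + 0.11063925) :=
      Real.log_div (by norm_num) (by norm_num)
    have l3 : Real.log (0.0999 / (0.505 * 0.0999 + 0.11063925)) =
        Real.log 0.0999 - Real.log (0.505 * 0.0999 + 0.11063925) :=
      Real.log_div (by norm_num) (by norm_num)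
    rw [l1, l2, l3]
    ring
  rw [e]
  have : Real.log (((1 / 8) / (0.505 * (1 / 8) + 0.11063925)) /
        (0.0999 / (0.505 * 0.0999 + 0.11063925))) ≤ 0.1493 := by
    apply log_le_of (by norm_num) (by norm_num) 4
    simp only [Finset.sum_range_succ, Finset.sum_range_zero, Nat.factorial]
    norm_num
  linarith

theorem numInt : NumInt := ⟨int1, int2, int3, int4⟩

end Pool.Agent.Helper59.AV
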