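import Pool.Agent.Helper40.AV.St2
import Pool.Agent.Helper59.AV.NumInt

set_option autoImplicit false

open Filter Topology

namespace Pool.Agent.Helper59.AV

open Pool.Agent.Helper40.AV

lemma log125 : Real.log 1.25 ≤ 0.224 := by
  apply log_le_of (by norm_num) (by norm_num) 7
  simp only [Finset.sum_range_succ, Finset.sum_range_zero, Nat.factorial]
  norm_num

lemma cu_low' {u : ℝ} (h1 : 1 ≤ u) (h2 : u ≤ 1.25) : 0.88 * u + 0.12 ≤ cu u := by
  apply chord (α := 1) (β := 1.25) (by norm_num) (by norm_num) _ _ h1 h2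
  · unfold cu
    rw [Real.log_one]
    norm_num
  · unfold cu
    have := log125
    linarith

theorem int6 : (∫ a in (0.2095 : ℝ)..(0.433 : ℝ), 2 / (0.4995 - a)) ≤ 2.95 := by
  have h : (∫ a in (0.2095 : ℝ)..(0.433 : ℝ), 2 / (0.4995 - a)) =
      (-2 * Real.log (0.4995 - 0.433)) - (-2 * Real.log (0.4995 - 0.2095)) := by
    apply intervalIntegral.integral_eq_sub_of_hasDerivAt (f := fun a => -2 * Real.log (0.4995 - a))
    · intro a ha
      rw [Set.uIcc_of_le (by norm_num)] at ha
      have ha0 : (0.4995 : ℝ) - a ≠ 0 := by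
        have := ha.2
        have : (0 : ℝ) < 0.4995 - a := by linarith
        exact this.ne'
      have h1 : HasDerivAt (fun a : ℝ => 0.4995 - a) (-1) a := by
        simpa using (hasDerivAt_id a).const_sub 0.4995
      have h2 := (h1.log ha0).const_mul (-2)
      refine h2.congr_deriv ?_
      field_simp
    · apply ContinuousOn.intervalIntegrable
      intro a ha
      rw [Set.uIcc_of_le (by norm_num)] at ha
      have ha0 : (0.4995 : ℝ) - a ≠ 0 := by
        have := ha.2
        have : (0 : ℝ) < 0.4995 - a := by linarith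
        exact this.ne'
      apply ContinuousAt.continuousWithinAt
      fun_prop (disch := assumption)
  rw [h]
  have e : (-2 * Real.log (0.4995 - 0.433)) - (-2 * Real.log (0.4995 - 0.2095)) =
      2 * Real.log (0.29 / 0.0665) := by
    rw [Real.log_div (by norm_num) (by norm_num)]
    norm_num
    ring
  rw [e]
  have : Real.log (0.29 / 0.0665) ≤ 1.475 := by
    apply log_le_of (by norm_num) (by norm_num) 9
    simp only [Finset.sum_range_succ, Finset.sum_range_zero, Nat.factorial]
    norm_num
  linarith

theorem int5 : (∫ a in (0.145 : ℝ)..(0.2095 : ℝ), 1 / (0.145 * cu ((0.4995 - a) / 0.29))) ≤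
    0.41 := by
  have hb : ∀ a ∈ Set.Icc (0.145 : ℝ) 0.2095, 0 < 0.23718 - 0.44 * a ∧
      0.23718 - 0.44 * a ≤ 0.145 * cu ((0.4995 - a) / 0.29) := by
    intro a ha
    have h1 := ha.1
    have h2 := ha.2
    refine ⟨by linarith, ?_⟩
    have := cu_low' (u := (0.4995 - a) / 0.29) (by rw [le_div_iff₀ (by norm_num)]; linarith)
      (by rw [div_le_iff₀ (by norm_num)]; linarith)
    have e : 0.23718 - 0.44 * a = 0.145 * (0.88 * ((0.4995 - a) / 0.29) + 0.12) := by
      ring
    rw [e]
    exact mul_le_mul_of_nonneg_left this (by norm_num)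
  have hmono : (∫ a in (0.145 : ℝ)..(0.2095 : ℝ), 1 / (0.145 * cu ((0.4995 - a) / 0.29))) ≤
      ∫ a in (0.145 : ℝ)..(0.2095 : ℝ), 1 / (0.23718 - 0.44 * a) := by
    apply intervalIntegral.integral_mono_on (by norm_num)
    · apply ContinuousOn.intervalIntegrable
      intro a ha
      rw [Set.uIcc_of_le (by norm_num)] at ha
      obtain ⟨h1, h2⟩ := hb a ha
      have h3 : 0.145 * cu ((0.4995 - a) / 0.29) ≠ 0 := (h1.trans_le h2).ne'
      have := cu_continuous
      apply ContinuousAt.continuousWithinAt
      fun_prop (disch := assumption)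
    · apply ContinuousOn.intervalIntegrable
      intro a ha
      rw [Set.uIcc_of_le (by norm_num)] at ha
      obtain ⟨h1, h2⟩ := hb a ha
      have h3 := h1.ne'
      apply ContinuousAt.continuousWithinAt
      fun_prop (disch := assumption)
    · intro a ha
      obtain ⟨h1, h2⟩ := hb a ha
      exact div_le_div_of_nonneg_left (by norm_num) h1 h2
  refine hmono.trans ?_
  have h : (∫ a in (0.145 : ℝ)..(0.2095 : ℝ), 1 / (0.23718 - 0.44 * a)) =
      (-(1 / 0.44) * Real.log (0.23718 - 0.44 * 0.2095)) -
        (-(1 / 0.44) * Real.log (0.23718 - 0.44 * 0.145)) := by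
    apply intervalIntegral.integral_eq_sub_of_hasDerivAt
      (f := fun a => -(1 / 0.44) * Real.log (0.23718 - 0.44 * a))
    · intro a ha
      rw [Set.uIcc_of_le (by norm_num)] at ha
      have h3 := (hb a ha).1.ne'
      have h1 : HasDerivAt (fun a : ℝ => 0.23718 - 0.44 * a) (-0.44) a := by
        simpa using ((hasDerivAt_id a).const_mul 0.44).const_sub 0.23718
      have h2 := (h1.log h3).const_mul (-(1 / 0.44))
      refine h2.congr_deriv ?_
      field_simp
    · apply ContinuousOn.intervalIntegrable
      intro a ha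
      rw [Set.uIcc_of_le (by norm_num)] at ha
      have h3 := (hb a ha).1.ne'
      apply ContinuousAt.continuousWithinAt
      fun_prop (disch := assumption)
  rw [h]
  have e : (-(1 / 0.44) * Real.log (0.23718 - 0.44 * 0.2095)) -
        (-(1 / 0.44) * Real.log (0.23718 - 0.44 * 0.145)) =
      1 / 0.44 * Real.log ((0.23718 - 0.44 * 0.145) / (0.23718 - 0.44 * 0.2095)) := by
    rw [Real.log_div (by norm_num) (by norm_num)]
    ring
  rw [e]
  have : Real.log ((0.23718 - 0.44 * 0.145) / (0.23718 - 0.44 * 0.2095)) ≤ 0.18 := by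
    apply log_le_of (by norm_num) (by norm_num) 5
    simp only [Finset.sum_range_succ, Finset.sum_range_zero, Nat.factorial]
    norm_num
  linarith

theorem numInt2 : NumInt2 := ⟨int5, int6⟩

end Pool.Agent.Helper59.AV
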