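import Pool.Agent.Helper40.AV.St2
import Pool.Agent.Helper40.AV.Base
import Pool.Agent.Helper51.AV.GammaNum
import Pool.Agent.Helper59.AV.NumInt

set_option autoImplicit false

/-! Project AV, LS6: kernel computation of the sieve functions on the grid `i / 16`. -/

open Filter Topology

namespace Pool.Agent.Helper59.AV.Tab

open Pool.Agent.Helper40.AV

/-! ### the computation -/

/-- suffix sums -/
def tot (l : List ℕ) (k : ℕ) : ℕ := (l.drop k).sum

/-- new lower table -/
def lo (F f : List ℕ) : List ℕ := (List.range 160).map fun m =>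
  if m < 16 then 0 else max (f.getD m 0) ((1919616000 - tot F (m - 16)) / (16 + m))

/-- new upper table -/
def up (f F : List ℕ) : List ℕ := (List.range 160).map fun m =>
  if m < 16 then F.getD m 0 else min (F.getD m 0) ((1920960000 - tot f (m - 16) + (15 + m)) / (16 + m))

/-- initial upper table -/
def g0 (i : ℕ) : ℕ :=
  if i ≤ 32 then (574560000 + (i - 1)) / i
  else if i ≤ 48 then (574560000000 + (31999 + 783 * (i - 32))) / (32000 + 783 * (i - 32))
  else (574560000000 + (23247 + 443 * min i 64)) / (23248 + 443 * min i 64)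

/-- initial upper table -/
def F0 : List ℕ := (List.range 160).map fun m => g0 (16 + m)

/-- initial lower table -/
def f0 : List ℕ := (List.range 160).map fun _ => 0

/-- one round -/
def step (p : List ℕ × List ℕ) : List ℕ × List ℕ := (up (lo p.1 p.2) p.1, lo p.1 p.2)

/-- all rounds -/
def iter : ℕ → List ℕ × List ℕ
  | 0 => (F0, f0)
  | n + 1 => step (iter n)

set_option maxRecDepth 100000 in
theorem final : 8950000 ≤ (iter 7).2.getD 39 0 := by decide +kernel

/-! ### correctness -/

theorem getD_map (g : ℕ → ℕ) {m : ℕ} (hm : m < 160) :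
    ((List.range 160).map g).getD m 0 = g m := by
  rw [List.getD_eq_getElem?_getD, List.getElem?_map, List.getElem?_range hm]
  rfl

theorem tot_eq (l : List ℕ) (n k : ℕ) (h : l.length = k + n) :
    tot l k = ∑ j ∈ Finset.range n, l.getD (k + j) 0 := by
  induction n generalizing k with
  | zero =>
    unfold tot
    rw [List.drop_of_length_le (by omega)]
    simp
  | succ n ih =>
    have h1 := ih (k + 1) (by omega)
    rw [Finset.sum_range_succ']
    have h2 : tot l k = l.getD k 0 + tot l (k + 1) := by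
      unfold tot
      rw [List.drop_eq_getElem_cons (show k < l.length by omega), List.sum_cons]
      congr 1
      rw [List.getD_eq_getElem?_getD, List.getElem?_eq_getElem (show k < l.length by omega)]
      rfl
    rw [h2, h1, add_comm]
    congr 1
    apply Finset.sum_congr rfl
    intro j _
    congr 1
    ring

theorem ceil_div (a i : ℕ) (hi : 0 < i) : (a : ℝ) / i ≤ (((a + (i - 1)) / i : ℕ) : ℝ) := by
  rw [div_le_iff₀ (by exact_mod_cast hi)]
  have h : a ≤ (a + (i - 1)) / i * i := by
    have h1 := Nat.div_add_mod (a + (i - 1)) i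
    have h2 := Nat.mod_lt (a + (i - 1)) hi
    have h3 : i * ((a + (i - 1)) / i) = (a + (i - 1)) / i * i := mul_comm _ _
    omega
  exact_mod_cast h

theorem upb_mono {s s' F F' : ℝ} (h : UpB s F) (hs : s ≤ s') (hF : F ≤ F') : UpB s' F' := by
  intro ε hε
  obtain ⟨z₀, hz⟩ := h ε hε
  refine ⟨max z₀ 1, fun z hz1 y l hl => ?_⟩
  have h1 : z₀ ≤ z := (le_max_left _ _).trans hz1
  have h2 : 1 ≤ z := (le_max_right _ _).trans hz1
  refine (hz z h1 y l ((Real.rpow_le_rpow_of_exponent_le h2 hs).trans hl)).trans ?_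
  have h3 : (0 : ℝ) ≤ l := Nat.cast_nonneg _
  have h4 := (vv_pos z).le
  gcongr

theorem lob_mono {s f f' : ℝ} (h : LoB s f) (hF : f' ≤ f) : LoB s f' := by
  intro ε hε
  obtain ⟨z₀, hz⟩ := h ε hε
  refine ⟨z₀, fun z hz1 y l hl => le_trans ?_ (hz z hz1 y l hl)⟩
  have h3 : (0 : ℝ) ≤ l := Nat.cast_nonneg _
  have h4 := (vv_pos z).le
  gcongr

theorem lob_zero (s : ℝ) : LoB s 0 := by
  intro ε hε
  refine ⟨0, fun z _ y l _ => ?_⟩
  have h3 : (0 : ℝ) ≤ l := Nat.cast_nonneg _
  have h4 := (vv_pos z).le
  have h5 : (0 : ℝ) ≤ ((RS y l z).card : ℝ) := Nat.cast_nonneg _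
  have h6 : 0 ≤ ε * l * VV z := by positivity
  linarith

/-- valid upper table -/
def UpT (F : List ℕ) : Prop := F.length = 160 ∧
  ∀ m : ℕ, m < 160 → UpB (((16 + m : ℕ) : ℝ) / 16) ((F.getD m 0 : ℕ) / 10000000)

/-- valid lower table -/
def LoT (f : List ℕ) : Prop := f.length = 160 ∧ (∀ m : ℕ, m < 16 → f.getD m 0 = 0) ∧
  ∀ m : ℕ, m < 160 → LoB (((16 + m : ℕ) : ℝ) / 16) ((f.getD m 0 : ℕ) / 10000000)

theorem lot_f0 : LoT f0 := by
  refine ⟨by simp [f0], fun m hm => ?_, fun m hm => ?_⟩
  · unfold f0
    rw [getD_map _ (by omega)]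
  · unfold f0
    rw [getD_map _ (by omega)]
    simpa using lob_zero _

theorem upt_F0 (h : SelUp) : UpT F0 := by
  have hg : Real.exp Real.eulerMascheroniConstant ≤ 1.7955 := by
    have h1 := (Pool.Agent.Helper51.AV.gammaNum).1
    rw [Real.exp_neg] at h1
    have h2 := Real.exp_pos Real.eulerMascheroniConstant
    rw [← one_div, le_div_iff₀ h2] at h1
    linarith
  refine ⟨by simp [F0], fun m hm => ?_⟩
  unfold F0
  rw [getD_map _ hm]
  set i : ℕ := 16 + m with hi
  have hi1 : (16 : ℝ) ≤ i := by
    rw [hi]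
    exact_mod_cast Nat.le_add_right 16 m
  have hi0 : (0 : ℝ) < i := by linarith
  have hin : 0 < i := by omega
  unfold g0
  split_ifs with c1 c2
  · have hc : (i : ℝ) ≤ 32 := by exact_mod_cast c1
    refine upb_mono (h.1 (i / 16) (by rw [le_div_iff₀ (by norm_num)]; linarith)
      (by rw [div_le_iff₀ (by norm_num)]; linarith)) le_rfl ?_
    have h1 := ceil_div 574560000 i hin
    have h2 : 2 * Real.exp Real.eulerMascheroniConstant / (i / 16) ≤ 2 * 1.7955 / (i / 16) := by
      gcongr
    have h3 : 2 * 1.7955 / ((i : ℝ) / 16) = ((574560000 : ℕ) : ℝ) / i / 10000000 := by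
      field_simp
      norm_num
    rw [h3] at h2
    exact h2.trans (div_le_div_of_nonneg_right h1 (by norm_num))
  · have hc : (i : ℝ) ≤ 48 := by exact_mod_cast c2
    have hc' : (32 : ℝ) < i := by exact_mod_cast (not_le.1 c1)
    refine upb_mono (h.2 (i / 16) (by rw [le_div_iff₀ (by norm_num)]; linarith)
      (by rw [div_le_iff₀ (by norm_num)]; linarith)) le_rfl ?_
    have h0 := cu_low (u := (i / 16 : ℝ) / 2) (by linarith) (by linarith)
    have hd : ((32000 + 783 * (i - 32) : ℕ) : ℝ) = 32000 + 783 * (i - 32) := by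
      rw [Nat.cast_add, Nat.cast_mul, Nat.cast_sub (by omega)]
      norm_num
    have hd' : 0 < 32000 + 783 * (i - 32) := by omega
    have h1 := ceil_div 574560000000 (32000 + 783 * (i - 32)) hd'
    rw [hd] at h1
    have e0 : (574560000000 + (32000 + 783 * (i - 32) - 1)) / (32000 + 783 * (i - 32)) =
      (574560000000 + (31999 + 783 * (i - 32))) / (32000 + 783 * (i - 32)) := by
      congr 2
      omega
    rw [e0] at h1
    have hpos : (0 : ℝ) < 32000 + 783 * (i - 32) := by linarith
    have h2 : Real.exp Real.eulerMascheroniConstant / cu ((i / 16 : ℝ) / 2) ≤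
        1.7955 / ((32000 + 783 * (i - 32)) / 32000) := by
      apply div_le_div₀ (by norm_num) hg (by positivity)
      refine le_trans (le_of_eq ?_) h0
      ring
    have h3 : 1.7955 / ((32000 + 783 * ((i : ℝ) - 32)) / 32000) =
        ((574560000000 : ℕ) : ℝ) / (32000 + 783 * (i - 32)) / 10000000 := by
      have := hpos.ne'
      field_simp
      norm_num
    rw [h3] at h2
    exact h2.trans (div_le_div_of_nonneg_right h1 (by norm_num))
  · have hc' : (48 : ℝ) < i := by exact_mod_cast (not_le.1 c2)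
    have hk1 : ((min i 64 : ℕ) : ℝ) ≤ i := by exact_mod_cast min_le_left _ _
    have hk2 : ((min i 64 : ℕ) : ℝ) ≤ 64 := by exact_mod_cast min_le_right _ _
    have hk3 : (48 : ℝ) ≤ ((min i 64 : ℕ) : ℝ) := by
      have : 48 ≤ min i 64 := by omega
      exact_mod_cast this
    generalize min i 64 = k at hk1 hk2 hk3 ⊢
    refine upb_mono (h.2 (k / 16) (by rw [le_div_iff₀ (by norm_num)]; linarith)
      (by rw [div_le_iff₀ (by norm_num)]; linarith)) (by linarith) ?_
    have h0 := cu_high (u := (k / 16 : ℝ) / 2) (by linarith) (by linarith)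
    have h1 := ceil_div 574560000000 (23248 + 443 * k) (by omega)
    have e0 : (574560000000 + (23248 + 443 * k - 1)) / (23248 + 443 * k) =
      (574560000000 + (23247 + 443 * k)) / (23248 + 443 * k) := by
      congr 2
      omega
    rw [e0] at h1
    have hd : ((23248 + 443 * k : ℕ) : ℝ) = 23248 + 443 * k := by push_cast; ring
    rw [hd] at h1
    have hpos : (0 : ℝ) < 23248 + 443 * k := by linarith
    have h2 : Real.exp Real.eulerMascheroniConstant / cu ((k / 16 : ℝ) / 2) ≤
        1.7955 / ((23248 + 443 * k) / 32000) := by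
      apply div_le_div₀ (by norm_num) hg (by positivity)
      refine le_trans (le_of_eq ?_) h0
      ring
    have h3 : 1.7955 / ((23248 + 443 * (k : ℝ)) / 32000) =
        ((574560000000 : ℕ) : ℝ) / (23248 + 443 * k) / 10000000 := by
      have := hpos.ne'
      field_simp
      norm_num
    rw [h3] at h2
    exact h2.trans (div_le_div_of_nonneg_right h1 (by norm_num))

theorem lot_lo (hTL : TailLo) (hLo : StepLo) {F f : List ℕ} (hF : UpT F) (hf : LoT f) :
    LoT (lo F f) := by
  refine ⟨by simp [lo], fun m hm => ?_, fun m hm => ?_⟩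
  · unfold lo
    rw [getD_map _ (by omega), if_pos hm]
  unfold lo
  rw [getD_map _ hm]
  split_ifs with c
  · simpa using lob_zero _
  have hm16 : 16 ≤ m := not_lt.1 c
  rcases le_total (f.getD m 0) ((1919616000 - tot F (m - 16)) / (16 + m)) with c2 | c2
  swap
  · rw [max_eq_left c2]
    exact hf.2.2 m hm
  rw [max_eq_right c2]
  have hmR : (16 : ℝ) ≤ m := by exact_mod_cast hm16
  rcases le_total 1919616000 (tot F (m - 16)) with c3 | c3
  · rw [Nat.sub_eq_zero_of_le c3, Nat.zero_div]
    simpa using lob_zero _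
  have hs : (((16 + m : ℕ) : ℝ) / 16) = (16 + m) / 16 := by push_cast; ring
  have key := hLo ((16 + m : ℝ) / 16) 12 0.9998 (176 - m) (fun j => ((16 + m : ℝ) + j) / 16)
    (fun j => ((F.getD (m - 16 + j) 0 : ℕ) : ℝ) / 10000000)
    (by linarith) (by simp) (by
      rw [Nat.cast_sub (by omega)]
      push_cast
      ring) (fun j _ => by push_cast; linarith) (fun j hj => by
        have h1 := hF.2 (m - 16 + j) (by omega)
        have e : (((16 + (m - 16 + j) : ℕ) : ℝ) / 16) = ((16 + m : ℝ) + j) / 16 - 1 := by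
          rw [show 16 + (m - 16 + j) = m + j by omega]
          push_cast
          ring
        rw [e] at h1
        exact h1) hTL
  rw [hs]
  refine lob_mono key ?_
  have e1 : ∑ j ∈ Finset.range (176 - m), (((16 + m : ℝ) + ((j + 1 : ℕ) : ℝ)) / 16 -
      ((16 + m : ℝ) + j) / 16) * (((F.getD (m - 16 + j) 0 : ℕ) : ℝ) / 10000000) =
      (tot F (m - 16) : ℝ) / 160000000 := by
    rw [tot_eq F (176 - m) (m - 16) (by rw [hF.1]; omega), Nat.cast_sum, Finset.sum_div]
    apply Finset.sum_congr rfl
    intro j _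
    push_cast
    ring
  have hd : (((1919616000 - tot F (m - 16)) / (16 + m) : ℕ) : ℝ) ≤
      (1919616000 - tot F (m - 16)) / (16 + m) := by
    refine Nat.cast_div_le.trans (le_of_eq ?_)
    rw [Nat.cast_sub c3]
    push_cast
    ring
  have e2 : (12 : ℝ) / ((16 + m) / 16) * 0.9998 - 1 / ((16 + m) / 16) *
      ((tot F (m - 16) : ℝ) / 160000000) =
      (1919616000 - tot F (m - 16)) / (16 + m) / 10000000 := by
    have : (16 + m : ℝ) ≠ 0 := by positivity
    field_simp
    norm_num
    ring
  rw [e1, e2]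
  exact div_le_div_of_nonneg_right hd (by norm_num)

theorem upt_up (hTU : TailUp) (hUp : StepUp) {F f : List ℕ} (hF : UpT F) (hf : LoT f) :
    UpT (up f F) := by
  refine ⟨by simp [up], fun m hm => ?_⟩
  unfold up
  rw [getD_map _ hm]
  split_ifs with c
  · exact hF.2 m hm
  have hm16 : 16 ≤ m := not_lt.1 c
  rcases le_total (F.getD m 0) ((1920960000 - tot f (m - 16) + (15 + m)) / (16 + m)) with c2 | c2
  · rw [min_eq_left c2]
    exact hF.2 m hm
  rw [min_eq_right c2]
  have hmR : (16 : ℝ) ≤ m := by exact_mod_cast hm16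
  have hs : (((16 + m : ℕ) : ℝ) / 16) = (16 + m) / 16 := by push_cast; ring
  have key := hUp ((16 + m : ℝ) / 16) 12 1.0005 (176 - m) (fun j => ((16 + m : ℝ) + j) / 16)
    (fun j => ((f.getD (m - 16 + j) 0 : ℕ) : ℝ) / 10000000)
    (by linarith) (by simp) (by
      rw [Nat.cast_sub (by omega)]
      push_cast
      ring) (fun j _ => by push_cast; linarith) (fun j hj => by
        rcases lt_or_ge (m - 16 + j) 16 with c3 | c3
        · left
          rw [hf.2.1 _ c3]
          simp
        right
        have h1 := hf.2.2 (m - 16 + j) (by omega)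
        have e : (((16 + (m - 16 + j) : ℕ) : ℝ) / 16) = ((16 + m : ℝ) + j) / 16 - 1 := by
          rw [show 16 + (m - 16 + j) = m + j by omega]
          push_cast
          ring
        rw [e] at h1
        refine ⟨?_, h1⟩
        have h2 : 32 ≤ m + j := by omega
        have h3 : (32 : ℝ) ≤ m + j := by exact_mod_cast h2
        linarith) hTU
  rw [hs]
  refine upb_mono key le_rfl ?_
  have e1 : ∑ j ∈ Finset.range (176 - m), (((16 + m : ℝ) + ((j + 1 : ℕ) : ℝ)) / 16 -
      ((16 + m : ℝ) + j) / 16) * (((f.getD (m - 16 + j) 0 : ℕ) : ℝ) / 10000000) =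
      (tot f (m - 16) : ℝ) / 160000000 := by
    rw [tot_eq f (176 - m) (m - 16) (by rw [hf.1]; omega), Nat.cast_sum, Finset.sum_div]
    apply Finset.sum_congr rfl
    intro j _
    push_cast
    ring
  have hd : ((1920960000 : ℝ) - tot f (m - 16)) / (16 + m) ≤
      (((1920960000 - tot f (m - 16) + (15 + m)) / (16 + m) : ℕ) : ℝ) := by
    have h1 := ceil_div (1920960000 - tot f (m - 16)) (16 + m) (by omega)
    have e0 : (16 + m - 1) = 15 + m := by omega
    rw [e0] at h1
    refine le_trans ?_ h1
    have h2 : (1920960000 : ℝ) - tot f (m - 16) ≤ ((1920960000 - tot f (m - 16) : ℕ) : ℝ) := by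
      rw [sub_le_iff_le_add]
      have : 1920960000 ≤ (1920960000 - tot f (m - 16)) + tot f (m - 16) := by omega
      exact_mod_cast this
    have h3 : ((16 + m : ℕ) : ℝ) = 16 + m := by push_cast; ring
    rw [h3]
    exact div_le_div_of_nonneg_right h2 (by positivity)
  have e2 : (12 : ℝ) / ((16 + m) / 16) * 1.0005 - 1 / ((16 + m) / 16) *
      ((tot f (m - 16) : ℝ) / 160000000) =
      (1920960000 - tot f (m - 16)) / (16 + m) / 10000000 := by
    have : (16 + m : ℝ) ≠ 0 := by positivity
    field_simp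
    norm_num
    ring
  rw [e1, e2]
  exact div_le_div_of_nonneg_right hd (by norm_num)

theorem tab_of (hS : SelUp) (hTU : TailUp) (hTL : TailLo) (hLo : StepLo) (hUp : StepUp) : Tab := by
  have h : ∀ n : ℕ, UpT (iter n).1 ∧ LoT (iter n).2 := by
    intro n
    induction n with
    | zero => exact ⟨upt_F0 hS, lot_f0⟩
    | succ n ih =>
      have h1 : LoT (lo (iter n).1 (iter n).2) := lot_lo hTL hLo ih.1 ih.2
      exact ⟨upt_up hTU hUp ih.1 h1, h1⟩
  have h7 := (h 7).2.2.2 39 (by norm_num)
  have hf := final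
  generalize (iter 7).2.getD 39 0 = x at h7 hf
  unfold Tab
  have e : (((16 + 39 : ℕ) : ℝ) / 16) = 3.4375 := by norm_num
  rw [e] at h7
  refine lob_mono h7 ?_
  have : (8950000 : ℝ) ≤ x := by exact_mod_cast hf
  rw [le_div_iff₀ (by norm_num)]
  linarith

end Pool.Agent.Helper59.AV.Tab
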